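import Pool.Agent.H21.CT.Main5

/-!
# [H34 IS BLK] IntegerRatios v2 (MP_8923e7_nt): the main contradiction for given trees of bad tuples

`treesN` (`H92/ST/TreeZ.lean`), `stepT`, `blocksT` (`H92/ST/Blk.lean`) and `not_denseG` (`H21/CT/Main5.lean`) with the
hypothesis of density replaced by the existence of trees of bad tuples of multiples of every `W`.
-/

namespace Pool.Agent.H34.IS

open Filter Pool.Agent.H92.BH Pool.Agent.H92.ST Pool.Agent.H74.BT Pool.Agent.H21.CT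

theorem treesN1 {m : ℕ} (hm : 1 ≤ m) {𝓑 : Set (Fin m → ℤ)}
    (h𝓑 : ∀ z ∈ 𝓑, ∀ t : ℤ, (fun i => z i + t) ∈ 𝓑) (hmono : ∀ z ∈ 𝓑, StrictMono z)
    (hZ : ∀ s d W : ℕ, 1 ≤ s → 0 < W → ∃ X : Finset ℤ, TrZ 𝓑 s d X ∧ ∀ x ∈ X, (W : ℤ) ∣ x) (s : ℕ)
    (d W : ℕ) (hW : 0 < W) : ∃ C : Finset ℕ, (∀ x ∈ C, W ∣ x) ∧ C.card ≤ m ^ d * s ∧
      Tr (fun z : Fin m → ℕ => (fun a => (z a : ℤ)) ∈ 𝓑) s d C := by
  classical
  obtain ⟨X, hX1, hX2⟩ := hZ (max s 1) d W (le_max_right _ _) hW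
  have hne := TrZ_nonempty hm (le_max_right s 1) hX1
  set t : ℤ := X.min' hne with ht
  have htX : t ∈ X := X.min'_mem hne
  have h1 := TrZ_translate h𝓑 (max s 1) d (-t) X hX1
  have h0 : ∀ x ∈ X.image (fun x => x + -t), 0 ≤ x := by
    intro x hx
    obtain ⟨y, hy, rfl⟩ := Finset.mem_image.mp hx
    have := X.min'_le y hy
    omega
  have h2 := Tr_of_TrZ hm hmono (le_max_right s 1) h0 h1
  have h3 := Tr_mono (le_max_left s 1) subset_rfl (fun _ _ h => h) h2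
  obtain ⟨C, hC1, hC2, hC3⟩ := Tr_card h3
  refine ⟨C, fun x hx => ?_, hC2, hC3⟩
  obtain ⟨y, hy, rfl⟩ := Finset.mem_image.mp (hC1 hx)
  obtain ⟨w, hw, rfl⟩ := Finset.mem_image.mp hy
  have h4 : (W : ℤ) ∣ w + -t := dvd_add (hX2 w hw) ((dvd_neg).mpr (hX2 t htX))
  have h5 := h0 _ hy
  have h6 : (((w + -t).toNat : ℕ) : ℤ) = w + -t := Int.toNat_of_nonneg h5
  rw [← h6] at h4
  exact_mod_cast h4

theorem stepT1 {m : ℕ} (hm : 1 ≤ m) {𝓑 : Set (Fin m → ℤ)}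
    (h𝓑 : ∀ z ∈ 𝓑, ∀ t : ℤ, (fun i => z i + t) ∈ 𝓑) (hmono : ∀ z ∈ 𝓑, StrictMono z)
    (hZ : ∀ s d W : ℕ, 1 ≤ s → 0 < W → ∃ X : Finset ℤ, TrZ 𝓑 s d X ∧ ∀ x ∈ X, (W : ℤ) ∣ x)
    {ι : Type} (P : ι → Finset ℕ → Prop) (I : Finset ι) (G : Finset ℕ) (l : ℕ) :
    ∃ H : Finset ℕ, H.card = 2 ^ l ∧ (∀ g ∈ G, ∀ x ∈ H, g < x) ∧
      (∀ x ∈ H, (G.card + 2 ^ l + 2).factorial ∣ x) ∧
      (∀ n, (m + 1) * n ≤ l → Tr (fun z : Fin m → ℕ => (fun a => (z a : ℤ)) ∈ 𝓑) n n H) ∧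
      ∀ i ∈ I, ∀ F ⊆ G, P i F → ∀ α : Ordinal.{0}, ¬ Sg (P i) α F →
        ∀ y ∈ H, ∃ β < α, ¬ Sg (P i) β (insert y F) := by
  classical
  have hW : 0 < (G.card + 2 ^ l + 2).factorial := Nat.factorial_pos _
  set W := (G.card + 2 ^ l + 2).factorial with hWdef
  obtain ⟨C₀, hC₀1, hC₀2, hC₀3⟩ := treesN1 hm h𝓑 hmono hZ (l / (m + 1)) (l / (m + 1)) W hW
  have hsize : C₀.card ≤ 2 ^ l := by
    refine hC₀2.trans ?_
    have h1 : m ^ (l / (m + 1)) ≤ 2 ^ (m * (l / (m + 1))) := by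
      rw [pow_mul]
      exact Nat.pow_le_pow_left Nat.lt_two_pow_self.le _
    have h2 : l / (m + 1) ≤ 2 ^ (l / (m + 1)) := Nat.lt_two_pow_self.le
    calc m ^ (l / (m + 1)) * (l / (m + 1)) ≤ 2 ^ (m * (l / (m + 1))) * 2 ^ (l / (m + 1)) :=
          Nat.mul_le_mul h1 h2
      _ = 2 ^ ((m + 1) * (l / (m + 1))) := by
          rw [← pow_add]
          congr 1
          ring
      _ ≤ 2 ^ l := Nat.pow_le_pow_right (by norm_num) (Nat.mul_div_le l (m + 1))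
  -- enlarge to `2 ^ l` elements
  obtain ⟨C, hC₀C, hC1, hC2⟩ : ∃ C : Finset ℕ, C₀ ⊆ C ∧ C.card = 2 ^ l ∧ ∀ x ∈ C, W ∣ x := by
    set U : Finset ℕ := C₀ ∪ (Finset.range (2 ^ l)).image (fun q => W * q) with hU
    have hUc : 2 ^ l ≤ U.card := by
      have h1 : ((Finset.range (2 ^ l)).image (fun q => W * q)).card = 2 ^ l := by
        rw [Finset.card_image_of_injective, Finset.card_range]
        intro a b hab
        exact Nat.eq_of_mul_eq_mul_left hW hab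
      rw [← h1]
      exact Finset.card_le_card Finset.subset_union_right
    obtain ⟨C, h1, h2, h3⟩ := Finset.exists_subsuperset_card_eq
      (Finset.subset_union_left : C₀ ⊆ U) hsize hUc
    refine ⟨C, h1, h3, fun x hx => ?_⟩
    rcases Finset.mem_union.mp (h2 hx) with h | h
    · exact hC₀1 x h
    · obtain ⟨q, _, rfl⟩ := Finset.mem_image.mp h
      exact Dvd.intro _ rfl
  have hZex : ∀ q : ι × Finset ℕ, ∃ Z : Set ℕ, ¬ UD Z ∧
      (P q.1 q.2 → ∀ α : Ordinal.{0}, ¬ Sg (P q.1) α q.2 →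
        ∃ β < α, Z = {y | Sg (P q.1) β (insert y q.2)}) := by
    rintro ⟨i, F⟩
    by_cases h : P i F ∧ ∃ α : Ordinal.{0}, ¬ Sg (P i) α F
    · obtain ⟨hg, hex⟩ := h
      obtain ⟨α₀, hα₀, hmin⟩ := WellFounded.has_min (wellFounded_lt (α := Ordinal.{0}))
        {α | ¬ Sg (P i) α F} hex
      have h1 : ¬ Sg (P i) α₀ F := hα₀
      rw [Sg_iff] at h1
      push Not at h1
      obtain ⟨β, hβ, hβ2⟩ := h1 hg
      refine ⟨{y | Sg (P i) β (insert y F)}, hβ2, fun _ α hα => ⟨β, ?_, rfl⟩⟩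
      exact hβ.trans_le (not_lt.mp (hmin α hα))
    · refine ⟨∅, fun hu => Set.not_nonempty_empty (UD_nonempty hu), fun hg α hα => ?_⟩
      exact absurd ⟨hg, α, hα⟩ h
  choose Z hZ1 hZ2 using hZex
  obtain ⟨t, ht1, ht2, ht3⟩ := exists_avoid (I ×ˢ G.powerset) Z
    (fun q _ => hZ1 q) C _ hW (G.sup id + 1)
  refine ⟨C.image (fun a => a + t), ?_, ?_, ?_, ?_, ?_⟩
  · rw [Finset.card_image_of_injective _ (add_left_injective t)]
    exact hC1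
  · intro g hg x hx
    rw [Finset.mem_image] at hx
    obtain ⟨a, _, rfl⟩ := hx
    have h1 : g ≤ G.sup id := Finset.le_sup (f := id) hg
    omega
  · intro x hx
    rw [Finset.mem_image] at hx
    obtain ⟨a, ha, rfl⟩ := hx
    exact dvd_add (hC2 a ha) ht2
  · intro n hn
    have hn2 : n ≤ l / (m + 1) := by
      rw [Nat.le_div_iff_mul_le (Nat.succ_pos m), mul_comm]
      exact hn
    exact Tr_mono hn2 (Finset.image_subset_image hC₀C) (fun _ _ h => h)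
      (Tr_shift h𝓑 _ n t C₀ (Tr_anti hm hn2 hC₀3))
  · intro i hi F hF hg α hα y hy
    rw [Finset.mem_image] at hy
    obtain ⟨a, ha, rfl⟩ := hy
    obtain ⟨β, hβ, e⟩ := hZ2 (i, F) hg α hα
    have h1 : t + a ∉ Z (i, F) := ht3 (i, F)
      (Finset.mem_product.2 ⟨hi, Finset.mem_powerset.2 hF⟩) a ha
    rw [e, Set.mem_ofPred_eq, add_comm t a] at h1
    exact ⟨β, hβ, h1⟩

theorem blocksT1 {m : ℕ} (hm : 1 ≤ m) {𝓑 : Set (Fin m → ℤ)}
    (h𝓑 : ∀ z ∈ 𝓑, ∀ t : ℤ, (fun i => z i + t) ∈ 𝓑) (hmono : ∀ z ∈ 𝓑, StrictMono z)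
    (hZ : ∀ s d W : ℕ, 1 ≤ s → 0 < W → ∃ X : Finset ℤ, TrZ 𝓑 s d X ∧ ∀ x ∈ X, (W : ℤ) ∣ x)
    {ι : Type} (P : ι → Finset ℕ → Prop) (I : Finset ℕ → Finset ι) :
    ∃ H : ℕ → Finset ℕ, (∀ i j, i < j → ∀ x ∈ H i, ∀ y ∈ H j, x < y) ∧
      (∀ p : ℕ, p.Prime → ∃ a : ℕ, ∀ j, ∀ h ∈ H j, ¬ p ∣ a + h) ∧
      (∀ j, Tr (fun z : Fin m → ℕ => (fun a => (z a : ℤ)) ∈ 𝓑) j j (H j)) ∧
      ∀ j, ∀ q ∈ I ((Finset.range j).biUnion H), ∀ F : Finset ℕ, (∀ x ∈ F, ∃ i < j, x ∈ H i) →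
        P q F → ∀ α : Ordinal.{0}, ¬ Sg (P q) α F →
          ∀ y ∈ H j, ∃ β < α, ¬ Sg (P q) β (insert y F) := by
  obtain ⟨H, h1, h2, h3, h4⟩ := iter_blocks
    (fun G H => (∀ g ∈ G, ∀ x ∈ H, g < x) ∧
      (∀ n, (m + 1) * n ≤ Nat.log 2 H.card →
        Tr (fun z : Fin m → ℕ => (fun a => (z a : ℤ)) ∈ 𝓑) n n H) ∧
      ∀ i ∈ I G, ∀ F ⊆ G, P i F → ∀ α : Ordinal.{0}, ¬ Sg (P i) α F →
        ∀ y ∈ H, ∃ β < α, ¬ Sg (P i) β (insert y F)) (fun j => (m + 1) * j)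
    (fun G l => by
      obtain ⟨H, a1, a2, a3, a4, a5⟩ := stepT1 hm h𝓑 hmono hZ P (I G) G l
      refine ⟨H, a1, Finset.disjoint_left.mpr (fun x hx hx' => lt_irrefl _ (a2 x hx x hx')),
        a3, a2, ?_, a5⟩
      intro n hn
      rw [a1, Nat.log_pow (by norm_num)] at hn
      exact a4 n hn)
  refine ⟨H, ?_, h3, fun j => (h4 j).2.1 j ?_, fun j i hi F hF => (h4 j).2.2 i hi F ?_⟩
  · intro i j hij x hx y hy
    exact (h4 j).1 x (Finset.mem_biUnion.mpr ⟨i, Finset.mem_range.mpr hij, hx⟩) y hy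
  · rw [h1, Nat.log_pow (by norm_num)]
  · intro x hx
    obtain ⟨i, hi, hxi⟩ := hF x hx
    exact Finset.mem_biUnion.mpr ⟨i, Finset.mem_range.mpr hi, hxi⟩

/-- the main contradiction -/
theorem not_tree {Gs : Set ℕ} {r : ℕ} (c : ℕ → Fin r) (k : ℕ) (hk : 1 ≤ k) {j : Fin (k + 1)}
    (hG : Iso1 Gs j)
    (hD : ∀ s d W : ℕ, 1 ≤ s → 0 < W → ∃ X : Finset ℤ, TrZ (badG Gs c k) s d X ∧
      ∀ x ∈ X, (W : ℤ) ∣ x) :
    False := by
  classical
  obtain ⟨H, hinc, hadm, htree, hinv⟩ := blocksT1 (m := k + 1) (by omega) (badG_translate Gs c k)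
    (fun z hz => hz.1) hD
    (fun (q : Fin r × (Fin (k + 1) → ℕ)) (F : Finset ℕ) => ShE c q.1 (gapG Gs q.2) F)
    (fun G => (Finset.univ : Finset (Fin r)) ×ˢ Fintype.piFinset (fun _ => G))
  obtain ⟨i, B, hBinf, hBH, j₀, z, hz, hRz, hsh⟩ := shatter5 hk hG c H hinc hadm
    (fun z : Fin (k + 1) → ℕ => (fun a => (z a : ℤ)) ∈ badG Gs c k)
    (fun n => ⟨n, le_rfl, H n, subset_rfl, Set.subset_univ _, htree n⟩)
  -- every finite subset is in every stage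
  have hst : ∀ α : Ordinal.{0}, ∀ F : Finset ℕ, ↑F ⊆ B → Sg (ShE c i (gapG Gs z)) α F := by
    intro α
    induction α using WellFoundedLT.induction with
    | _ α ih =>
      intro F hF
      by_contra hnot
      have hj : ∀ x ∈ F, ∃ j, x ∈ H j := fun x hx => hBH x (hF (Finset.mem_coe.mpr hx))
      choose! jf hjf using hj
      obtain ⟨y, hyB, hy⟩ : ∃ y ∈ B, y ∉ (Finset.range (F.sup jf + j₀ + 1)).biUnion H := by
        by_contra hcon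
        push Not at hcon
        exact hBinf ((Finset.finite_toSet _).subset hcon)
      obtain ⟨j, hyj⟩ := hBH y hyB
      have hjgt : F.sup jf + j₀ < j := by
        by_contra hle
        exact hy (Finset.mem_biUnion.mpr ⟨j, Finset.mem_range.mpr (by omega), hyj⟩)
      have h1 : ∀ x ∈ F, ∃ i' < j, x ∈ H i' := fun x hx =>
        ⟨jf x, by
          have := Finset.le_sup (f := jf) hx
          omega, hjf x hx⟩
      have hj₀ : ∀ u ∈ H j₀, u ∈ (Finset.range j).biUnion H := fun u hu =>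
        Finset.mem_biUnion.mpr ⟨j₀, Finset.mem_range.mpr (by omega), hu⟩
      obtain ⟨β, hβ, hβ2⟩ := hinv j (i, z)
        (Finset.mem_product.mpr ⟨Finset.mem_univ _, Fintype.mem_piFinset.mpr
          (fun a => hj₀ _ (hz a).1)⟩)
        F h1 (hsh F hF) α hnot y hyj
      refine hβ2 (ih β hβ (insert y F) ?_)
      intro a ha
      rcases Finset.mem_insert.mp (Finset.mem_coe.mp ha) with rfl | ha
      · exact hyB
      · exact hF (Finset.mem_coe.mpr ha)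
  -- the contradiction
  obtain ⟨hmono, hbad⟩ := hRz
  have hle : ∀ a, z 0 ≤ z a := by
    intro a
    have h1 := hmono.monotone (Fin.zero_le a)
    exact_mod_cast h1
  refine hbad ?_
  set zz : Fin (k + 1) → ℕ := fun a => ((z a : ℤ) - (z 0 : ℤ)).toNat with hzz
  have hzza : ∀ a, zz a + z 0 = z a := by
    intro a
    have h1 := hle a
    simp only [hzz]
    omega
  refine ⟨i, fam_of_Sg (ShE c i (gapG Gs zz)) (Finset.univ.image zz) (fun α => ?_)⟩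
  refine Sg_shift (ShE c i (gapG Gs zz)) (ShE c i (gapG Gs z)) (z 0) (fun F hF => ?_) α _ ?_
  · refine ShE_shift c i (z 0) (gapG Gs zz) (gapG Gs z) ?_ F hF
    rintro x ⟨a, b, h1, h2, h3, h4⟩
    refine ⟨a, b, h1, h2, ?_, ?_⟩
    · rw [← hzza a]
      exact Nat.add_lt_add_right h3 _
    · rw [← hzza b]
      exact Nat.add_lt_add_right h4 _
  refine hst α _ ?_
  intro x hx
  obtain ⟨y, hy, rfl⟩ := Finset.mem_image.mp (Finset.mem_coe.mp hx)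
  obtain ⟨a, _, rfl⟩ := Finset.mem_image.mp hy
  rw [hzza a]
  exact (hz a).2

end Pool.Agent.H34.IS
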