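import Pool.Agent.H92.ST.TreeZ
import Pool.Agent.H34.IR.Step

/-!
# [H34 IS TREE] IntegerRatios v2 (MP_8923e7_nt): from trees of blocks to trees of bad tuples
-/

namespace Pool.Agent.H34.IS

open Finset Pool.Agent.H92.ST Pool.Agent.H34.IR

theorem trZ_of_nodes {k : ℕ} {B : ℤ → (Fin k → ℤ) → Prop} (W : ℤ) (hW : 0 < W)
    (𝓑 : Set (Fin (k + 2) → ℤ))
    (h𝓑 : ∀ u : Fin (k + 2) → ℤ, NP B W u → ∀ σ : Equiv.Perm (Fin (k + 2)),
      StrictMono (fun a => u (σ a)) → (fun a => W * u (σ a)) ∈ 𝓑) (s : ℕ) (hs : 1 ≤ s) (d : ℕ) :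
    ∀ V : (Fin d → Fin (k + 2)) → Finset ℤ, (∀ w, (V w).card = s) → Nodes (NP B W) d V → Sep d V →
      TrZ 𝓑 s d ((pts V).image fun x => W * x) := by
  classical
  induction d with
  | zero =>
    intro V hV _ _
    show s ≤ ((pts V).image fun x => W * x).card
    rw [card_image_of_injective]
    · have h1 : V (fun i => i.elim0) ⊆ pts V := fun y hy => mem_pts.2 ⟨_, hy⟩
      exact (hV (fun i => i.elim0)).ge.trans (card_le_card h1)
    · intro x y h
      exact mul_left_cancel₀ hW.ne' h
  | succ d ih =>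
    intro V hV hN hS
    have hch : ∀ i, TrZ 𝓑 s d ((pts fun w => V (Fin.cons i w)).image fun x => W * x) := fun i =>
      ih _ (fun w => hV _) (hN.2 i) (hS.2 i)
    have hne : ∀ i : Fin (k + 2), ∃ y, y ∈ V (Fin.cons i fun _ => 0) := by
      intro i
      have h1 : 0 < (V (Fin.cons i fun _ => 0)).card := by
        rw [hV]
        omega
      exact Finset.card_pos.1 h1
    choose q hq using hne
    have hlt : ∀ i j, q i < q j → ∀ v w : Fin d → Fin (k + 2), ∀ x ∈ V (Fin.cons i v),
        ∀ y ∈ V (Fin.cons j w), x < y := by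
      intro i j hij
      have hne' : i ≠ j := by
        rintro rfl
        exact lt_irrefl _ hij
      rcases hS.1 i j hne' with h | h
      · exact h
      · exact absurd (h _ _ _ (hq i) _ (hq j)) (not_lt.2 hij.le)
    have hinj : Function.Injective q := by
      intro i j hij
      by_contra hne'
      rcases hS.1 i j hne' with h | h
      · exact absurd (h _ _ _ (hq i) _ (hq j)) (by rw [hij]; exact lt_irrefl _)
      · exact absurd (h _ _ _ (hq i) _ (hq j)) (by rw [hij]; exact lt_irrefl _)
    obtain ⟨σ, hσ⟩ : ∃ σ : Equiv.Perm (Fin (k + 2)), StrictMono (fun a => q (σ a)) :=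
      ⟨Tuple.sort q, (Tuple.monotone_sort q).strictMono_of_injective
        (hinj.comp (Tuple.sort q).injective)⟩
    refine ⟨fun a => (pts fun w => V (Fin.cons (σ a) w)).image fun x => W * x, fun a => ?_,
      fun a => hch (σ a), ?_⟩
    · refine image_subset_image fun y hy => ?_
      obtain ⟨w, hw⟩ := mem_pts.1 hy
      exact mem_pts.2 ⟨_, hw⟩
    · intro z hz
      choose y hy hyz using fun a => mem_image.1 (hz a)
      choose w hw using fun a => mem_pts.1 (hy a)
      have hu := hN.1 (fun i => y (σ.symm i)) (fun i => ⟨w (σ.symm i), by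
        have h1 := hw (σ.symm i)
        simp only [Equiv.apply_symm_apply] at h1
        exact h1⟩)
      have h1 := h𝓑 _ hu σ (by
        intro a b hab
        show y (σ.symm (σ a)) < y (σ.symm (σ b))
        rw [Equiv.symm_apply_apply, Equiv.symm_apply_apply]
        exact hlt _ _ (hσ hab) _ _ _ (hw a) _ (hw b))
      have e : (fun a => W * (fun i => y (σ.symm i)) (σ a)) = z := by
        funext a
        show W * y (σ.symm (σ a)) = z a
        rw [Equiv.symm_apply_apply]
        exact hyz a
      rwa [e] at h1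

end Pool.Agent.H34.IS
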