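import Pool.Agent.H21.CT.Pairs5
import Pool.Agent.H34.IS.Blk
import Pool.Agent.H34.IS.Tree

/-!
# [H34 IS FIN] IntegerRatios v2 (MP_8923e7_nt): the theorem
-/

namespace Pool.Agent.H34.IS

open Finset Pool.Agent.H92.ST Pool.Agent.H34.IR Pool.Agent.H21.CT

/-- the set `{0, m, m t 1, ..., m t k}` -/
def dil {k : ℕ} (m : ℤ) (t : Fin k → ℤ) : Finset ℤ := insert 0 (insert m (univ.image fun j => m * t j))

/-- `{0, m, m t 1, ..., m t k}` is extendable for some `m ≤ M` -/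
def GoodX {k r : ℕ} (Gs : Set ℕ) (c : ℕ → Fin r) (M : ℤ) (t : Fin k → ℤ) : Prop :=
  ∃ m : ℕ, 1 ≤ m ∧ (m : ℤ) ≤ M ∧ ExtG Gs c (dil (m : ℤ) t)

theorem mem_dil {k : ℕ} (m : ℤ) (t : Fin k → ℤ) (W b : ℤ) (u : Fin (k + 2) → ℤ) (hm : m = W * (u 1 - u 0))
    (ht : ∀ j : Fin k, u j.succ.succ = u 0 + t j * (u 1 - u 0)) :
    b ∈ dil m t ↔ ∃ i, W * u i - W * u 0 = b := by
  unfold dil
  rw [mem_insert, mem_insert, mem_image]
  constructor
  · rintro (rfl | rfl | ⟨j, -, rfl⟩)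
    · exact ⟨0, sub_self _⟩
    · refine ⟨1, ?_⟩
      rw [hm]
      ring
    · refine ⟨j.succ.succ, ?_⟩
      rw [hm, ht j]
      ring
  · rintro ⟨i, rfl⟩
    revert i
    refine Fin.cases ?_ (Fin.cases ?_ fun j => ?_)
    · exact Or.inl (sub_self _)
    · refine Or.inr (Or.inl ?_)
      rw [Fin.succ_zero_eq_one, hm]
      ring
    · refine Or.inr (Or.inr ⟨j, mem_univ _, ?_⟩)
      rw [hm, ht j]
      ring

theorem bad_of_NP {k r : ℕ} (Gs : Set ℕ) (c : ℕ → Fin r) (W : ℤ) (hW : 0 < W) (u : Fin (k + 2) → ℤ)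
    (hu : NP (fun M t => ¬ GoodX Gs c M t) W u) (σ : Equiv.Perm (Fin (k + 2)))
    (hσ : StrictMono (fun a => u (σ a))) : (fun a => W * u (σ a)) ∈ badG Gs c (k + 1) := by
  classical
  obtain ⟨hlt, t, ht, hbad⟩ := hu
  have hmono : ∀ a b : Fin (k + 1 + 1), a < b → W * u (σ a) < W * u (σ b) := fun a b hab =>
    mul_lt_mul_of_pos_left (hσ hab) hW
  refine ⟨fun a b hab => hmono a b hab, fun hf => hbad ?_⟩
  obtain ⟨m, hm⟩ : ∃ m : ℕ, (m : ℤ) = W * (u 1 - u 0) := by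
    have : 0 < W * (u 1 - u 0) := mul_pos hW (by omega)
    exact ⟨(W * (u 1 - u 0)).toNat, by omega⟩
  have hmpos : 0 < W * (u 1 - u 0) := mul_pos hW (by omega)
  have hle : ∀ i, W * u (σ 0) ≤ W * u i := by
    intro i
    have h1 : W * u (σ 0) ≤ W * u (σ (σ.symm i)) := by
      rcases eq_or_lt_of_le (Fin.zero_le (σ.symm i)) with h | h
      · rw [← h]
      · exact (hmono _ _ h).le
    rwa [Equiv.apply_symm_apply] at h1
  refine ⟨m, by omega, by omega, ?_⟩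
  refine extG_of_famG c (fun a => (W * u (σ a) - W * u (σ 0)).toNat) ?_ (W * u 0 - W * u (σ 0)).toNat _ ?_ hf
  · intro a b hab
    have h1 := hmono a b hab
    have h2 := hle (σ a)
    show (W * u (σ a) - W * u (σ 0)).toNat < (W * u (σ b) - W * u (σ 0)).toNat
    omega
  · ext b
    rw [mem_dil (m : ℤ) t W b u hm ht, mem_image]
    have h0 := hle 0
    constructor
    · rintro ⟨i, rfl⟩
      refine ⟨σ.symm i, mem_univ _, ?_⟩
      have h1 := hle i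
      rw [Equiv.apply_symm_apply]
      omega
    · rintro ⟨a, -, rfl⟩
      refine ⟨σ a, ?_⟩
      have h1 := hle (σ a)
      omega

theorem card_dil {k : ℕ} (m : ℤ) (t : Fin k → ℤ) : (dil m t).card ≤ k + 1 + 1 := by
  unfold dil
  refine (card_insert_le _ _).trans (Nat.succ_le_succ ((card_insert_le _ _).trans (Nat.succ_le_succ ?_)))
  refine card_image_le.trans ?_
  rw [card_univ, Fintype.card_fin]

theorem main (r k Q : ℕ) (c : ℕ → Fin r) (ε : ℝ) (Gs : Set ℕ) (hG : OnePair Gs) (hQ : 0 < Q) (hε : 0 < ε) :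
    ∃ (M X₀ : ℕ) (δ : ℝ), 0 < δ ∧ ∀ X a : Fin k → ℤ, (∀ j, (X₀ : ℤ) ≤ |X j|) →
      δ * ∏ j, |(X j : ℝ)| ≤ (({t : Fin k → ℤ |
        (∀ j, X j < t j ∧ (t j : ℝ) ≤ X j + ε * |(X j : ℝ)| ∧ t j ≡ a j [ZMOD Q]) ∧
          ∃ m : ℕ, 1 ≤ m ∧ m ≤ M ∧ ExtG Gs c (dil (m : ℤ) t)}).ncard : ℝ) := by
  classical
  by_contra hcon
  push Not at hcon
  obtain ⟨e, he⟩ : ∃ e : ℝ, e = min ε (1 / 2) := ⟨_, rfl⟩
  have he0 : 0 < e := by
    rw [he]
    exact lt_min hε (by norm_num)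
  have he1 : e < 1 := by
    rw [he]
    exact lt_of_le_of_lt (min_le_right _ _) (by norm_num)
  have heε : e ≤ ε := by
    rw [he]
    exact min_le_left _ _
  -- the gaps which occur
  obtain ⟨G, hGd⟩ : ∃ G : Finset ℕ, G = (range (k + 1)).filter (fun t => t ∈ Gs) := ⟨_, rfl⟩
  have hco : (↑G : Set ℕ) = Gs ∩ Set.Iio (k + 1) := by
    ext t
    rw [hGd]
    simp only [coe_filter, mem_range, Set.mem_ofPred_eq, Set.mem_inter_iff, Set.mem_Iio]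
    tauto
  obtain ⟨j₀, hj₀⟩ := iso1_of_onePair (k := k + 1) (G := G) (by
    rw [hGd]
    exact filter_subset _ _) (by
    rw [hco]
    intro s hs t ht hs1 ht1
    exact hG s hs.1 t ht.1 hs1.1 ht1.1)
  rw [hco] at hj₀
  refine not_tree c (k + 1) (by omega) hj₀ fun s d W hs hW => ?_
  have hB : Bld (fun M t => ¬ GoodX (k := k) (Gs ∩ Set.Iio (k + 1)) c M t) s d := by
    refine bld_all Q hQ e he0 he1 _ ?_ ?_ s d hs
    · rintro M M' t hMM h1 ⟨m, h2, h3, h4⟩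
      exact h1 ⟨m, h2, h3.trans hMM, h4⟩
    · intro M X₀ δ hδ
      obtain ⟨X, a, hX, hlt⟩ := hcon M.toNat X₀ δ hδ
      refine ⟨X, a, hX, fun S hS => le_trans ?_ hlt.le⟩
      rw [← Set.ncard_coe_finset]
      refine Nat.cast_le.2 (Set.ncard_le_ncard ?_ ?_)
      · intro t ht
        obtain ⟨h1, h2, h3⟩ := hS t (Finset.mem_coe.1 ht)
        replace h3 := not_not.1 h3
        unfold Box at h1
        rw [Fintype.mem_piFinset] at h1
        obtain ⟨m, hm1, hm2, hi⟩ := h3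
        refine ⟨fun j => ?_, m, hm1, by omega, ext_restrict (card_dil _ _) hi⟩
        have h4 := mem_Ioc.1 (h1 j)
        refine ⟨h4.1, ?_, h2 j⟩
        have h5 : (t j : ℝ) ≤ X j + ⌊e * |(X j : ℝ)|⌋ := by exact_mod_cast h4.2
        have h6 : (⌊e * |(X j : ℝ)|⌋ : ℝ) ≤ e * |(X j : ℝ)| := Int.floor_le _
        have h7 : e * |(X j : ℝ)| ≤ ε * |(X j : ℝ)| := mul_le_mul_of_nonneg_right heε (abs_nonneg _)
        linarith
      · refine Set.Finite.subset (Box ε X).finite_toSet ?_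
        intro t ht
        rw [Finset.mem_coe]
        unfold Box
        rw [Fintype.mem_piFinset]
        intro j
        obtain ⟨h1, h2, _⟩ := ht.1 j
        rw [mem_Ioc]
        refine ⟨h1, ?_⟩
        have h3 : ((t j - X j : ℤ) : ℝ) ≤ ε * |(X j : ℝ)| := by
          push_cast
          linarith
        have h4 := Int.le_floor.2 h3
        omega
  obtain ⟨V, hV, hN, hS⟩ := hB (W : ℤ) (by omega)
  refine ⟨(pts V).image fun x => (W : ℤ) * x, ?_, ?_⟩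
  · exact trZ_of_nodes (W : ℤ) (by exact_mod_cast hW) _
      (fun u hu σ hσ => bad_of_NP _ c (W : ℤ) (by exact_mod_cast hW) u hu σ hσ) s hs d V hV hN hS
  · intro x hx
    obtain ⟨y, -, rfl⟩ := mem_image.1 hx
    exact Dvd.intro _ rfl

/-- the constants do not depend on `Gs` -/
theorem main_uni (r k Q : ℕ) (c : ℕ → Fin r) (ε : ℝ) (hQ : 0 < Q) (hε : 0 < ε) :
    ∃ (M X₀ : ℕ) (δ : ℝ), 0 < δ ∧ ∀ Gs : Set ℕ, OnePair Gs → ∀ X a : Fin k → ℤ, (∀ j, (X₀ : ℤ) ≤ |X j|) →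
      δ * ∏ j, |(X j : ℝ)| ≤ (({t : Fin k → ℤ |
        (∀ j, X j < t j ∧ (t j : ℝ) ≤ X j + ε * |(X j : ℝ)| ∧ t j ≡ a j [ZMOD Q]) ∧
          ∃ m : ℕ, 1 ≤ m ∧ m ≤ M ∧ ExtG Gs c (dil (m : ℤ) t)}).ncard : ℝ) := by
  classical
  have hex : ∀ G : Finset ℕ, ∃ (M X₀ : ℕ) (δ : ℝ), 0 < δ ∧ (OnePair (↑G : Set ℕ) → ∀ X a : Fin k → ℤ,
      (∀ j, (X₀ : ℤ) ≤ |X j|) → δ * ∏ j, |(X j : ℝ)| ≤ (({t : Fin k → ℤ |
        (∀ j, X j < t j ∧ (t j : ℝ) ≤ X j + ε * |(X j : ℝ)| ∧ t j ≡ a j [ZMOD Q]) ∧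
          ∃ m : ℕ, 1 ≤ m ∧ m ≤ M ∧ ExtG (↑G : Set ℕ) c (dil (m : ℤ) t)}).ncard : ℝ)) := by
    intro G
    by_cases hG : OnePair (↑G : Set ℕ)
    · obtain ⟨M, X₀, δ, hδ, h⟩ := main r k Q c ε (↑G : Set ℕ) hG hQ hε
      exact ⟨M, X₀, δ, hδ, fun _ => h⟩
    · exact ⟨0, 0, 1, one_pos, fun h => absurd h hG⟩
  choose M X₀ δ hδ H using hex
  obtain ⟨P, hP⟩ : ∃ P : Finset (Finset ℕ), P = (range (k + 1)).powerset := ⟨_, rfl⟩
  have hPne : P.Nonempty := by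
    rw [hP]
    exact ⟨∅, empty_mem_powerset _⟩
  obtain ⟨G₀, hG₀, hmin⟩ := exists_min_image P δ hPne
  refine ⟨P.sup M, P.sup X₀, δ G₀, hδ G₀, fun Gs hGs X a hX => ?_⟩
  obtain ⟨G, hGd⟩ : ∃ G : Finset ℕ, G = (range (k + 1)).filter (fun t => t ∈ Gs) := ⟨_, rfl⟩
  have hGP : G ∈ P := by
    rw [hP, mem_powerset, hGd]
    exact filter_subset _ _
  have hco : (↑G : Set ℕ) = Gs ∩ Set.Iio (k + 1) := by
    ext t
    rw [hGd]
    simp only [coe_filter, mem_range, Set.mem_ofPred_eq, Set.mem_inter_iff, Set.mem_Iio]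
    tauto
  have hone : OnePair (↑G : Set ℕ) := by
    rw [hco]
    intro s hs t ht hs1 ht1
    exact hGs s hs.1 t ht.1 hs1.1 ht1.1
  have hM : M G ≤ P.sup M := le_sup (f := M) hGP
  have hX₀ : X₀ G ≤ P.sup X₀ := le_sup (f := X₀) hGP
  have h1 := H G hone X a (fun j => le_trans (by exact_mod_cast hX₀) (hX j))
  have h2 : δ G₀ * ∏ j, |(X j : ℝ)| ≤ δ G * ∏ j, |(X j : ℝ)| :=
    mul_le_mul_of_nonneg_right (hmin G hGP) (prod_nonneg fun j _ => abs_nonneg _)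
  refine h2.trans (h1.trans (Nat.cast_le.2 (Set.ncard_le_ncard ?_ ?_)))
  · rintro t ⟨h3, m, h4, h5, h6⟩
    rw [hco] at h6
    exact ⟨h3, m, h4, h5.trans hM, ext_restrict (card_dil _ _) h6⟩
  · refine Set.Finite.subset (Box ε X).finite_toSet ?_
    intro t ht
    rw [Finset.mem_coe]
    unfold Box
    rw [Fintype.mem_piFinset]
    intro j
    obtain ⟨h1, h2, _⟩ := ht.1 j
    rw [mem_Ioc]
    refine ⟨h1, ?_⟩
    have h3 : ((t j - X j : ℤ) : ℝ) ≤ ε * |(X j : ℝ)| := by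
      push_cast
      linarith
    have h4 := Int.le_floor.2 h3
    omega

end Pool.Agent.H34.IS
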