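import Pool.Agent.H34.IS.Fin

/-!
# [H34 IS QUOT] IntegerRatios v2 (MP_8923e7_nt): quotients of consecutive gaps
-/

namespace Pool.Agent.H34.IS

open Finset Pool.Agent.H92.ST Pool.Agent.H34.IR Pool.Agent.H21.CT Pool.Agent.H21.CG

/-- consecutive gaps from an exact triple (a shift of the triple is allowed) -/
theorem pair_of_exact (c : ℕ → Fin 1) (h u v : ℕ) (hu : 0 < u) (hv : 0 < v) (A : Finset ℤ)
    (hA : ∀ b : ℤ, b ∈ A ↔ b = -h ∨ b = u - h ∨ b = (u + v : ℕ) - h) (hx : ExtG {0, 1} c A) :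
    {n : ℕ | gap n = u ∧ gap (n + 1) = v}.Infinite := by
  classical
  obtain ⟨i, 𝓕, hAF, hF⟩ := hx
  have hex := (hF _ hAF).2.1 _ subset_rfl
  have hci : ∀ n, c n = i := fun n => Subsingleton.elim _ _
  refine Set.infinite_of_forall_exists_gt fun M => ?_
  obtain ⟨N₁, hN₁, hNM₁⟩ := hex.exists_gt (Nat.nth Nat.Prime M + h)
  obtain ⟨N, hNe⟩ : ∃ N : ℕ, N₁ = N + h := ⟨N₁ - h, by omega⟩
  have hNM : Nat.nth Nat.Prime M < N := by omega
  have hN : ∀ x : ℤ, (x - h ∈ A ∨ InGapG {0, 1} A (x - h)) →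
      ((((N : ℤ) + x).toNat.Prime ∧ c ((N : ℤ) + x).toNat = i) ↔ x - h ∈ A) := by
    intro x hx
    have h1 := hN₁ (x - h) hx
    have h2 : (N₁ : ℤ) + (x - h) = (N : ℤ) + x := by
      rw [hNe]
      push_cast
      ring
    rw [h2] at h1
    exact h1
  have hpr : ∀ x : ℤ, x - h ∈ A → ((N : ℤ) + x).toNat.Prime := fun x hx => ((hN x (Or.inl hx)).2 hx).1
  have h0 : Nat.Prime N := by
    have := hpr 0 ((hA _).2 (Or.inl (by ring)))
    simpa using this
  have h1 : Nat.Prime (N + u) := by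
    have := hpr u ((hA _).2 (Or.inr (Or.inl rfl)))
    have e : ((N : ℤ) + u).toNat = N + u := by omega
    rwa [e] at this
  have h2 : Nat.Prime (N + u + v) := by
    have := hpr ((u + v : ℕ) : ℤ) ((hA _).2 (Or.inr (Or.inr rfl)))
    have e : ((N : ℤ) + ((u + v : ℕ) : ℤ)).toNat = N + u + v := by omega
    rwa [e] at this
  have hno : ∀ b : ℕ, 0 < b → b < u + v → b ≠ u → ¬ (N + b).Prime := by
    intro b hb0 hbv hbu hp
    have hbA : (b : ℤ) - h ∉ A := by
      rw [hA]
      omega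
    have hgap : InGapG {0, 1} A ((b : ℤ) - h) := by
      refine ⟨hbA, ?_, ((u + v : ℕ) : ℤ) - h, (hA _).2 (Or.inr (Or.inr rfl)), by omega⟩
      rcases lt_or_gt_of_ne hbu with hlt | hgt
      · refine ⟨0, by simp, ?_⟩
        have e : A.filter (fun x => x < (b : ℤ) - h) = {-(h : ℤ)} := by
          ext x
          rw [mem_filter, hA, mem_singleton]
          constructor
          · rintro ⟨rfl | rfl | rfl, hx⟩
            · rfl
            · omega
            · omega
          · rintro rfl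
            exact ⟨Or.inl rfl, by omega⟩
        rw [e]
        simp
      · refine ⟨1, by simp, ?_⟩
        have e : A.filter (fun x => x < (b : ℤ) - h) = {-(h : ℤ), (u : ℤ) - h} := by
          ext x
          rw [mem_filter, hA, mem_insert, mem_singleton]
          constructor
          · rintro ⟨rfl | rfl | rfl, hx⟩
            · exact Or.inl rfl
            · exact Or.inr rfl
            · omega
          · rintro (rfl | rfl)
            · exact ⟨Or.inl rfl, by omega⟩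
            · exact ⟨Or.inr (Or.inl rfl), by omega⟩
        rw [e, card_pair]
        omega
    refine hbA ((hN b (Or.inr hgap)).1 ⟨?_, hci _⟩)
    have e : ((N : ℤ) + b).toNat = N + b := by omega
    rw [e]
    exact hp
  have hn0 : Nat.nth Nat.Prime (Nat.count Nat.Prime N) = N := Nat.nth_count h0
  obtain ⟨n, hn⟩ : ∃ n, n = Nat.count Nat.Prime N := ⟨_, rfl⟩
  rw [← hn] at hn0
  have hn1 : Nat.nth Nat.Prime (n + 1) = N + u := by
    refine gap_next hn0 h1 (by omega) ?_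
    intro r hr1 hr2 hr
    refine hno (r - N) (by omega) (by omega) (by omega) ?_
    rwa [Nat.add_sub_cancel' hr1.le]
  have hn2 : Nat.nth Nat.Prime (n + 1 + 1) = N + u + v := by
    refine gap_next hn1 h2 (by omega) ?_
    intro r hr1 hr2 hr
    refine hno (r - N) (by omega) (by omega) (by omega) ?_
    rwa [Nat.add_sub_cancel' (by omega)]
  refine ⟨n, ⟨?_, ?_⟩, ?_⟩
  · unfold gap
    rw [hn1, hn0]
    omega
  · unfold gap
    rw [hn2, hn1]
    omega
  · rw [← Nat.nth_lt_nth Nat.infinite_setOfPred_prime, hn0]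
    exact hNM

theorem one_pair : OnePair {0, 1} := by
  intro s hs t ht hs1 ht1
  simp only [Set.mem_insert_iff, Set.mem_singleton_iff] at hs hs1 ht ht1
  omega

theorem quot_pos (c : ℕ → Fin 1) (m s : ℕ) (hm : 1 ≤ m) (hs : 1 ≤ s) (t : Fin 1 → ℤ) (ht : t 0 = s + 1)
    (h : ExtG {0, 1} c (dil (m : ℤ) t)) : {n : ℕ | gap n = m ∧ gap (n + 1) = s * m}.Infinite := by
  classical
  refine pair_of_exact c 0 m (s * m) (by omega) (Nat.mul_pos hs hm) _ (fun b => ?_) h
  unfold dil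
  rw [mem_insert, mem_insert, mem_image]
  have e : (m : ℤ) * t 0 = ((m + s * m : ℕ) : ℤ) - (0 : ℕ) := by
    rw [ht]
    push_cast
    ring
  constructor
  · rintro (rfl | rfl | ⟨j, -, rfl⟩)
    · left
      simp
    · right
      left
      simp
    · right
      right
      rw [Subsingleton.elim j 0]
      exact e
  · rintro (rfl | rfl | rfl)
    · left
      simp
    · right
      left
      simp
    · right
      right
      exact ⟨0, mem_univ _, e⟩

theorem quot_neg (c : ℕ → Fin 1) (m s : ℕ) (hm : 1 ≤ m) (hs : 1 ≤ s) (t : Fin 1 → ℤ) (ht : t 0 = -s)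
    (h : ExtG {0, 1} c (dil (m : ℤ) t)) : {n : ℕ | gap n = s * m ∧ gap (n + 1) = m}.Infinite := by
  classical
  refine pair_of_exact c (s * m) (s * m) m (Nat.mul_pos hs hm) (by omega) _ (fun b => ?_) h
  unfold dil
  rw [mem_insert, mem_insert, mem_image]
  have e : (m : ℤ) * t 0 = -((s * m : ℕ) : ℤ) := by
    rw [ht]
    push_cast
    ring
  constructor
  · rintro (rfl | rfl | ⟨j, -, rfl⟩)
    · right
      left
      simp
    · right
      right
      push_cast
      ring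
    · left
      rw [Subsingleton.elim j 0]
      exact e
  · rintro (rfl | rfl | rfl)
    · right
      right
      exact ⟨0, mem_univ _, e⟩
    · left
      simp
    · right
      left
      push_cast
      ring

theorem quot (Q : ℕ) (ε : ℝ) (hQ : 0 < Q) (hε : 0 < ε) : ∃ (M X₀ : ℕ) (δ : ℝ), 0 < δ ∧ ∀ (X : ℕ) (a : ℤ), X₀ ≤ X →
    δ * X ≤ (({s : ℕ | X < s ∧ (s : ℝ) ≤ (1 + ε) * X ∧ (s : ℤ) ≡ a [ZMOD Q] ∧ ∃ m : ℕ, 1 ≤ m ∧ m ≤ M ∧
      {n : ℕ | gap n = m ∧ gap (n + 1) = s * m}.Infinite}).ncard : ℝ) ∧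
    δ * X ≤ (({s : ℕ | X < s ∧ (s : ℝ) ≤ (1 + ε) * X ∧ (s : ℤ) ≡ a [ZMOD Q] ∧ ∃ m : ℕ, 1 ≤ m ∧ m ≤ M ∧
      {n : ℕ | gap n = s * m ∧ gap (n + 1) = m}.Infinite}).ncard : ℝ) := by
  classical
  obtain ⟨e, he⟩ : ∃ e : ℝ, e = ε / (2 * (1 + ε)) := ⟨_, rfl⟩
  have he0 : 0 < e := by
    rw [he]
    positivity
  have he1 : e * (1 + ε) = ε / 2 := by
    rw [he]
    field_simp
  obtain ⟨M, X₀, δ, hδ, H⟩ := main 1 1 Q (fun _ => 0) e {0, 1} one_pair hQ he0
  obtain ⟨X₁, hX₁⟩ : ∃ X₁ : ℕ, 2 / ε + 1 ≤ (X₁ : ℝ) := ⟨⌈2 / ε + 1⌉₊, Nat.le_ceil _⟩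
  have hfin : ∀ (X : ℕ) (P : ℕ → Prop), {s : ℕ | X < s ∧ (s : ℝ) ≤ (1 + ε) * X ∧ P s}.Finite := by
    intro X P
    refine Set.Finite.subset (Set.finite_Iic ⌊(1 + ε) * X⌋₊) fun s hs => ?_
    exact Nat.le_floor hs.2.1
  refine ⟨M, max X₀ (max X₁ 1), δ, hδ, fun X a hX => ?_⟩
  have hX0 : X₀ ≤ X := (le_max_left _ _).trans hX
  have hX1 : X₁ ≤ X := ((le_max_left _ _).trans (le_max_right _ _)).trans hX
  have hX2 : 1 ≤ X := ((le_max_right _ _).trans (le_max_right _ _)).trans hX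
  have hXr : (1 : ℝ) ≤ X := by exact_mod_cast hX2
  have hXr1 : 2 / ε + 1 ≤ (X : ℝ) := hX₁.trans (by exact_mod_cast hX1)
  have hXε : 2 + ε ≤ X * ε := by
    have h1 : (2 / ε + 1) * ε = 2 + ε := by field_simp
    rw [← h1]
    exact mul_le_mul_of_nonneg_right hXr1 hε.le
  have heX : e * X ≤ ε / 2 * X := by
    refine mul_le_mul_of_nonneg_right ?_ (by positivity)
    nlinarith [mul_pos he0 hε]
  constructor
  · have h1 := H (fun _ => (X : ℤ) + 1) (fun _ => a + 1) (fun _ => by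
      show (X₀ : ℤ) ≤ |(X : ℤ) + 1|
      rw [abs_of_nonneg (by positivity)]
      omega)
    rw [Fin.prod_univ_one] at h1
    have h2 : δ * X ≤ δ * |(((X : ℤ) + 1 : ℤ) : ℝ)| := by
      refine mul_le_mul_of_nonneg_left ?_ hδ.le
      push_cast
      rw [abs_of_nonneg (by positivity)]
      linarith
    refine h2.trans (h1.trans (Nat.cast_le.2 ?_))
    refine Set.ncard_le_ncard_of_injOn (fun t => (t 0 - 1).toNat) ?_ ?_ (hfin X _)
    · rintro t ⟨h3, m, h4, h5, h6⟩
      obtain ⟨h7, h8, h9⟩ := h3 0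
      have h10 : ((t 0 - 1).toNat : ℤ) = t 0 - 1 := by omega
      have h10r : (((t 0 - 1).toNat : ℕ) : ℝ) = (t 0 : ℝ) - 1 := by exact_mod_cast h10
      refine ⟨by omega, ?_, ?_, m, h4, h5, ?_⟩
      · rw [h10r]
        push_cast at h8
        rw [abs_of_nonneg (by positivity)] at h8
        nlinarith
      · rw [h10]
        have h11 := h9.sub (Int.ModEq.refl (n := (Q : ℤ)) 1)
        simpa using h11
      · exact quot_pos _ m _ h4 (by omega) t (by omega) h6
    · rintro t ⟨h3, -⟩ t' ⟨h3', -⟩ htt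
      have h7 := (h3 0).1
      have h7' := (h3' 0).1
      have htt' : (t 0 - 1).toNat = (t' 0 - 1).toNat := htt
      funext j
      rw [Subsingleton.elim j 0]
      omega
  · obtain ⟨Y, hY⟩ : ∃ Y : ℕ, Y = ⌊(1 + ε) * X⌋₊ := ⟨_, rfl⟩
    have hY1 : (Y : ℝ) ≤ (1 + ε) * X := by
      rw [hY]
      exact Nat.floor_le (by positivity)
    have hY2 : (1 + ε) * X < Y + 1 := by
      rw [hY]
      exact Nat.lt_floor_add_one _
    have hYX : X ≤ Y := by
      rw [hY]
      refine Nat.le_floor ?_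
      nlinarith
    have hY3 : (X : ℝ) < (1 - e) * Y := by
      have h3 : e * (Y : ℝ) ≤ ε / 2 * X := by
        calc e * (Y : ℝ) ≤ e * ((1 + ε) * X) := mul_le_mul_of_nonneg_left hY1 he0.le
          _ = (e * (1 + ε)) * X := by ring
          _ = ε / 2 * X := by rw [he1]
      nlinarith
    have h1 := H (fun _ => -(Y : ℤ) - 1) (fun _ => -a) (fun _ => by
      show (X₀ : ℤ) ≤ |-(Y : ℤ) - 1|
      rw [abs_of_nonpos (by omega)]
      omega)
    rw [Fin.prod_univ_one] at h1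
    have h2 : δ * X ≤ δ * |((-(Y : ℤ) - 1 : ℤ) : ℝ)| := by
      refine mul_le_mul_of_nonneg_left ?_ hδ.le
      push_cast
      rw [abs_of_nonpos (by linarith)]
      have : (X : ℝ) ≤ Y := by exact_mod_cast hYX
      linarith
    refine h2.trans (h1.trans (Nat.cast_le.2 ?_))
    refine Set.ncard_le_ncard_of_injOn (fun t => (-t 0).toNat) ?_ ?_ (hfin X _)
    · rintro t ⟨h3, m, h4, h5, h6⟩
      obtain ⟨h7, h8, h9⟩ := h3 0
      push_cast at h8
      rw [abs_of_nonpos (by linarith)] at h8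
      have h12 : (X : ℝ) < -(t 0 : ℝ) := by
        nlinarith
      have h13 : (X : ℤ) < -t 0 := by exact_mod_cast h12
      have h10 : ((-t 0).toNat : ℤ) = -t 0 := by omega
      have h10r : (((-t 0).toNat : ℕ) : ℝ) = -(t 0 : ℝ) := by exact_mod_cast h10
      refine ⟨by omega, ?_, ?_, m, h4, h5, ?_⟩
      · rw [h10r]
        have h14 : -t 0 ≤ (Y : ℤ) := by omega
        have h15 : -(t 0 : ℝ) ≤ Y := by exact_mod_cast h14
        linarith
      · rw [h10]
        have h11 := h9.neg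
        simpa using h11
      · exact quot_neg _ m _ h4 (by omega) t (by omega) h6
    · rintro t ⟨h3, -⟩ t' ⟨h3', -⟩ htt
      have htt' : (-t 0).toNat = (-t' 0).toNat := htt
      have key : ∀ t : Fin 1 → ℤ, (∀ j, -(Y : ℤ) - 1 < t j ∧
          (t j : ℝ) ≤ ((-(Y : ℤ) - 1 : ℤ) : ℝ) + e * |((-(Y : ℤ) - 1 : ℤ) : ℝ)| ∧ t j ≡ -a [ZMOD Q]) → t 0 < 0 := by
        intro t h3
        obtain ⟨h7, h8, h9⟩ := h3 0
        push_cast at h8
        rw [abs_of_nonpos (by linarith)] at h8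
        have h12 : (X : ℝ) < -(t 0 : ℝ) := by
          nlinarith
        have h13 : (X : ℤ) < -t 0 := by exact_mod_cast h12
        omega
      have k1 := key t h3
      have k2 := key t' h3'
      funext j
      rw [Subsingleton.elim j 0]
      omega

end Pool.Agent.H34.IS
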