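import Pool.Agent.H34.IS.Quot
import Pool.Agent.H92.AP.Quot

/-!
(1) Let `Q ≥ 1` and `ε > 0`. A positive proportion of the integers `s` in EVERY interval `(X, (1 + ε) X]`, `X ≥ X₀`, and in EVERY residue
class modulo `Q` are, infinitely often, the quotient of two consecutive gaps between primes, in both orders, the smaller gap being at most
`M` (`M` does not depend on `X`, `s` and the class); at least `δ X / (log X)^C` of these `s` are ALMOST PRIME together with `s + 1` (at most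
`R` prime factors). This is the case `k = 1`, `A = {0, m, m (s + 1)}` or `A = {- s m, 0, m}`, `G = {0, 1}` of (2).

(2) Let `k`, `Q ≥ 1`, `ε > 0` and a finite colouring of the naturals be given. For a positive proportion of the integer
vectors `t = (t_1, ..., t_k)` in EVERY large box `X_j < t_j ≤ X_j + ε |X_j|` and in EVERY residue class modulo `Q`, and for at least
`δ ∏ |X_j| / (log |X_j|)^C` ALMOST PRIME `t` (all the differences of two members of the tuple `(0, 1, t_1, ..., t_k)` are `≠ 0` and have at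
most `R` prime factors) in each of them, there is `m ≤ M` (`M` does not depend on the box, on the class and on `t`) such that the set
`A = {0, m, m t_1, ..., m t_k} = {e_0 < e_1 < ...}` satisfies the prime tuples conjecture in exact form: for a set `G` of gaps
`(e_s, e_(s+1))` (given before `t`) which contains at most one pair of adjacent gaps there is a colour `i` such that `A` belongs to a family
of finite sets of integers, the members `F` of which contain `A`, satisfy the prime tuples conjecture in exact form (every subset `F'` of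
`F` is, for infinitely many `N`, the exact set of the `b` in `F` or in one of the gaps in `G` with `N + b` a prime of colour
`i`) and can be extended within the family by the elements of a set of positive upper density.
-/

namespace Pool.Agent.H34.IS.V3

open Filter

/-- `G` contains at most one pair of adjacent numbers -/
def OnePair (G : Set ℕ) : Prop := ∀ s ∈ G, ∀ t ∈ G, s + 1 ∈ G → t + 1 ∈ G → s = t

/-- `b` is not in `A`, for some `t ∈ G` exactly `t + 1` elements of `A` are smaller than `b`, and at least one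
is larger: if `e_0 < e_1 < ...` are the elements of `A`, then `b` lies strictly between `e_t` and `e_(t+1)` for
some `t ∈ G` -/
def InGap (G : Set ℕ) (A : Finset ℤ) (b : ℤ) : Prop :=
  b ∉ A ∧ (∃ t ∈ G, (A.filter (fun x => x < b)).card = t + 1) ∧ ∃ x ∈ A, b < x

/-- every subset `F'` of `F` is, for infinitely many `N`, the set of all `b` in `F` or in a gap of `A` with
number in `G` such that `N + b` is a prime of colour `i` -/
def Exact {r : ℕ} (c : ℕ → Fin r) (i : Fin r) (G : Set ℕ) (A F : Finset ℤ) : Prop :=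
  ∀ F' : Finset ℤ, F' ⊆ F → {N : ℕ | ∀ b : ℤ, (b ∈ F ∨ InGap G A b) →
    ((((N : ℤ) + b).toNat.Prime ∧ c ((N : ℤ) + b).toNat = i) ↔ b ∈ F')}.Infinite

/-- positive upper density of a set of natural numbers -/
def PosUpperDensity (Y : Set ℕ) : Prop :=
  ∃ δ : ℝ, 0 < δ ∧ ∃ᶠ X : ℕ in atTop, δ * X ≤ ((Y ∩ Set.Iio X).ncard : ℝ)

/-- for some colour `i`, the set `A` belongs to a family of finite sets which contain `A`, have the exact
pattern property `Exact`, and can be extended within the family by the elements of a set of positive upper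
density -/
def Extendable {r : ℕ} (c : ℕ → Fin r) (G : Set ℕ) (A : Finset ℤ) : Prop :=
  ∃ (i : Fin r) (𝓕 : Set (Finset ℤ)), A ∈ 𝓕 ∧
    ∀ F ∈ 𝓕, A ⊆ F ∧ Exact c i G A F ∧ PosUpperDensity {y : ℕ | insert (y : ℤ) F ∈ 𝓕}

/-- the gap between the primes number `n` and `n + 1` (the prime number `0` is `2`) -/
noncomputable def gap (n : ℕ) : ℕ := Nat.nth Nat.Prime (n + 1) - Nat.nth Nat.Prime n

/-- `z` is not `0` and has at most `R` prime factors, counted with multiplicity -/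
def AlmostPrime (R : ℕ) (z : ℤ) : Prop := z ≠ 0 ∧ z.natAbs.primeFactorsList.length ≤ R

/-- all differences of two members of the tuple `(0, 1, t 1, ..., t k)` are not `0` and have at most `R` prime factors -/
def AlmostPrimeTuple {k : ℕ} (R : ℕ) (t : Fin k → ℤ) : Prop :=
  ∀ j, AlmostPrime R (t j) ∧ AlmostPrime R (t j - 1) ∧ ∀ i, i ≠ j → AlmostPrime R (t j - t i)

/-- **Theorem.** -/
theorem result :
    (∀ (Q : ℕ) (ε : ℝ), 0 < Q → 0 < ε → ∃ (M X₀ R C : ℕ) (δ : ℝ), 0 < δ ∧ ∀ (X : ℕ) (a : ℤ), X₀ ≤ X →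
      ((δ * X ≤ (({s : ℕ | X < s ∧ (s : ℝ) ≤ (1 + ε) * X ∧ (s : ℤ) ≡ a [ZMOD Q] ∧ ∃ m : ℕ, 1 ≤ m ∧ m ≤ M ∧
          {n : ℕ | gap n = m ∧ gap (n + 1) = s * m}.Infinite}).ncard : ℝ) ∧
        δ * (X / Real.log X ^ C) ≤ (({s : ℕ | X < s ∧ (s : ℝ) ≤ (1 + ε) * X ∧ (s : ℤ) ≡ a [ZMOD Q] ∧
          AlmostPrime R s ∧ AlmostPrime R (s + 1) ∧ ∃ m : ℕ, 1 ≤ m ∧ m ≤ M ∧
          {n : ℕ | gap n = m ∧ gap (n + 1) = s * m}.Infinite}).ncard : ℝ)) ∧
       (δ * X ≤ (({s : ℕ | X < s ∧ (s : ℝ) ≤ (1 + ε) * X ∧ (s : ℤ) ≡ a [ZMOD Q] ∧ ∃ m : ℕ, 1 ≤ m ∧ m ≤ M ∧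
          {n : ℕ | gap n = s * m ∧ gap (n + 1) = m}.Infinite}).ncard : ℝ) ∧
        δ * (X / Real.log X ^ C) ≤ (({s : ℕ | X < s ∧ (s : ℝ) ≤ (1 + ε) * X ∧ (s : ℤ) ≡ a [ZMOD Q] ∧
          AlmostPrime R s ∧ AlmostPrime R (s + 1) ∧ ∃ m : ℕ, 1 ≤ m ∧ m ≤ M ∧
          {n : ℕ | gap n = s * m ∧ gap (n + 1) = m}.Infinite}).ncard : ℝ)))) ∧
    ∀ (r k Q : ℕ) (c : ℕ → Fin r) (ε : ℝ), 0 < Q → 0 < ε → ∃ (M X₀ R C : ℕ) (δ : ℝ), 0 < δ ∧
      ∀ G : Set ℕ, OnePair G → ∀ X a : Fin k → ℤ, (∀ j, (X₀ : ℤ) ≤ |X j|) →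
        δ * ∏ j, |(X j : ℝ)| ≤ (({t : Fin k → ℤ |
          (∀ j, X j < t j ∧ (t j : ℝ) ≤ X j + ε * |(X j : ℝ)| ∧ t j ≡ a j [ZMOD Q]) ∧
            ∃ m : ℕ, 1 ≤ m ∧ m ≤ M ∧ Extendable c G
              (insert 0 (insert (m : ℤ) (Finset.univ.image fun j => (m : ℤ) * t j)))}).ncard : ℝ) ∧
        δ * ∏ j, |(X j : ℝ)| / Real.log |(X j : ℝ)| ^ C ≤ (({t : Fin k → ℤ |
          (∀ j, X j < t j ∧ (t j : ℝ) ≤ X j + ε * |(X j : ℝ)| ∧ t j ≡ a j [ZMOD Q]) ∧ AlmostPrimeTuple R t ∧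
            ∃ m : ℕ, 1 ≤ m ∧ m ≤ M ∧ Extendable c G
              (insert 0 (insert (m : ℤ) (Finset.univ.image fun j => (m : ℤ) * t j)))}).ncard : ℝ) := by
  classical
  have fin1 : ∀ (X : ℕ) (ε : ℝ) (P : ℕ → Prop), {s : ℕ | X < s ∧ (s : ℝ) ≤ (1 + ε) * X ∧ P s}.Finite := by
    intro X ε P
    refine Set.Finite.subset (Set.finite_Iic ⌊(1 + ε) * X⌋₊) fun s hs => ?_
    exact Nat.le_floor hs.2.1
  have fin2 : ∀ {k : ℕ} (X a : Fin k → ℤ) (Q : ℕ) (ε : ℝ) (P : (Fin k → ℤ) → Prop), {t : Fin k → ℤ |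
      (∀ j, X j < t j ∧ (t j : ℝ) ≤ X j + ε * |(X j : ℝ)| ∧ t j ≡ a j [ZMOD Q]) ∧ P t}.Finite := by
    intro k X a Q ε P
    refine Set.Finite.subset (Set.Finite.pi (ι := Fin k) (t := fun j => Set.Ioc (X j) ⌊(X j : ℝ) + ε * |(X j : ℝ)|⌋)
      (fun j => Set.finite_Ioc _ _)) fun t ht => ?_
    rw [Set.mem_pi]
    intro j _
    exact ⟨(ht.1 j).1, Int.le_floor.2 (ht.1 j).2.1⟩
  refine ⟨fun Q ε hQ hε => ?_, fun r k Q c ε hQ hε => ?_⟩
  · obtain ⟨M₁, X₁, δ₁, hδ₁, H₁⟩ := Pool.Agent.H34.IS.quot Q ε hQ hε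
    obtain ⟨M₂, X₂, R, C, δ₂, hδ₂, H₂⟩ := Pool.Agent.H92.AP.quot' Q ε hQ hε
    refine ⟨max M₁ M₂, max (max X₁ X₂) 1, R, C, min δ₁ δ₂, lt_min hδ₁ hδ₂, fun X a hX => ?_⟩
    have h1 := H₁ X a (((le_max_left _ _).trans (le_max_left _ _)).trans hX)
    have h2 := H₂ X a (((le_max_right _ _).trans (le_max_left _ _)).trans hX)
    have hX1 : (1 : ℝ) ≤ X := by exact_mod_cast (le_max_right _ _).trans hX
    have hw : (0 : ℝ) ≤ X / Real.log X ^ C := div_nonneg (by linarith) (pow_nonneg (Real.log_nonneg hX1) C)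
    have k1 : min δ₁ δ₂ * X ≤ δ₁ * X := mul_le_mul_of_nonneg_right (min_le_left _ _) (by linarith)
    have k2 : min δ₁ δ₂ * (X / Real.log X ^ C) ≤ δ₂ * (X / Real.log X ^ C) :=
      mul_le_mul_of_nonneg_right (min_le_right _ _) hw
    refine ⟨⟨(k1.trans h1.1).trans ?_, (k2.trans h2.1).trans ?_⟩, (k1.trans h1.2).trans ?_, (k2.trans h2.2).trans ?_⟩
    · refine Nat.cast_le.2 (Set.ncard_le_ncard ?_ (fin1 X ε _))
      rintro s ⟨a1, a2, a3, m, a4, a5, a6⟩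
      exact ⟨a1, a2, a3, m, a4, a5.trans (le_max_left _ _), a6⟩
    · refine Nat.cast_le.2 (Set.ncard_le_ncard ?_ (fin1 X ε _))
      rintro s ⟨a1, a2, a3, b1, b2, m, a4, a5, a6⟩
      exact ⟨a1, a2, a3, ⟨by omega, b1⟩, ⟨by omega, b2⟩, m, a4, a5.trans (le_max_right _ _), a6⟩
    · refine Nat.cast_le.2 (Set.ncard_le_ncard ?_ (fin1 X ε _))
      rintro s ⟨a1, a2, a3, m, a4, a5, a6⟩
      exact ⟨a1, a2, a3, m, a4, a5.trans (le_max_left _ _), a6⟩
    · refine Nat.cast_le.2 (Set.ncard_le_ncard ?_ (fin1 X ε _))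
      rintro s ⟨a1, a2, a3, b1, b2, m, a4, a5, a6⟩
      exact ⟨a1, a2, a3, ⟨by omega, b1⟩, ⟨by omega, b2⟩, m, a4, a5.trans (le_max_right _ _), a6⟩
  · obtain ⟨M₁, X₁, δ₁, hδ₁, H₁⟩ := Pool.Agent.H34.IS.main_uni r k Q c ε hQ hε
    obtain ⟨M₂, X₂, R, C, δ₂, hδ₂, H₂⟩ := Pool.Agent.H92.AP.main_uni' r k Q c ε hQ hε
    refine ⟨max M₁ M₂, max (max X₁ X₂) 1, R, C, min δ₁ δ₂, lt_min hδ₁ hδ₂, fun G hG X a hX => ?_⟩
    have hX' : ∀ j, ((max (max X₁ X₂) 1 : ℕ) : ℤ) ≤ |X j| := hX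
    have h1 := H₁ G hG X a fun j => le_trans (by exact_mod_cast (le_max_left _ _).trans (le_max_left _ _)) (hX j)
    have h2 := H₂ G hG X a fun j => le_trans (by exact_mod_cast (le_max_right _ _).trans (le_max_left _ _)) (hX j)
    have hX1 : ∀ j, (1 : ℝ) ≤ |(X j : ℝ)| := fun j => by
      have e1 : ((1 : ℕ) : ℤ) ≤ |X j| := le_trans (by exact_mod_cast le_max_right _ _) (hX j)
      exact_mod_cast e1
    have hw : (0 : ℝ) ≤ ∏ j, |(X j : ℝ)| / Real.log |(X j : ℝ)| ^ C :=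
      Finset.prod_nonneg fun j _ => div_nonneg (abs_nonneg _) (pow_nonneg (Real.log_nonneg (hX1 j)) C)
    have k1 : min δ₁ δ₂ * ∏ j, |(X j : ℝ)| ≤ δ₁ * ∏ j, |(X j : ℝ)| :=
      mul_le_mul_of_nonneg_right (min_le_left _ _) (Finset.prod_nonneg fun j _ => abs_nonneg _)
    have k2 : min δ₁ δ₂ * ∏ j, |(X j : ℝ)| / Real.log |(X j : ℝ)| ^ C ≤
        δ₂ * ∏ j, |(X j : ℝ)| / Real.log |(X j : ℝ)| ^ C := mul_le_mul_of_nonneg_right (min_le_right _ _) hw
    refine ⟨(k1.trans h1).trans ?_, (k2.trans h2).trans ?_⟩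
    · refine Nat.cast_le.2 (Set.ncard_le_ncard ?_ (fin2 X a Q ε _))
      rintro t ⟨a1, m, a4, a5, a6⟩
      exact ⟨a1, m, a4, a5.trans (le_max_left _ _), a6⟩
    · refine Nat.cast_le.2 (Set.ncard_le_ncard ?_ (fin2 X a Q ε _))
      rintro t ⟨a1, a2, m, a4, a5, a6⟩
      exact ⟨a1, a2, m, a4, a5.trans (le_max_right _ _), a6⟩

end Pool.Agent.H34.IS.V3
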